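import Pool.Agent.LGP.Orth
import Pool.Agent.SQT.Final

/-!
Characteristic `p`: the chain of layers.
-/

namespace Pool.Agent.LGP

open Pool.Agent.Helper85.SC Pool.Agent.SQT IntermediateField

variable {k : Type*} {K : Type*} [Field k] [Field K] [Algebra k K]

section closure

/-- the perfect closure of `F` in `K` -/
noncomputable def PF (F : IntermediateField k K) : IntermediateField k K :=
  (perfectClosure F K).restrictScalars k

theorem mem_PF {p : ℕ} [Fact p.Prime] [CharP k p] {F : IntermediateField k K} {x : K} :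
    x ∈ PF F ↔ ∃ N : ℕ, x ^ p ^ N ∈ F := by
  have hF : CharP F p := charP_of_injective_algebraMap (algebraMap k F).injective p
  have hexp : ExpChar F p := ExpChar.prime (Fact.out : p.Prime)
  rw [PF, mem_restrictScalars, mem_perfectClosure_iff, ringExpChar.eq F p]
  constructor
  · rintro ⟨N, y, hy⟩
    refine ⟨N, ?_⟩
    rw [← hy]
    exact y.2
  · rintro ⟨N, hN⟩
    exact ⟨N, ⟨_, hN⟩, rfl⟩

theorem le_PF {p : ℕ} [Fact p.Prime] [CharP k p] (F : IntermediateField k K) : F ≤ PF F := by
  intro x hx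
  rw [mem_PF (p := p)]
  exact ⟨0, by simpa using hx⟩

theorem perf_PF {p : ℕ} [Fact p.Prime] [CharP k p] [IsAlgClosed K] (F : IntermediateField k K) :
    Perf p (PF F) := by
  intro x hx
  obtain ⟨N, hN⟩ := (mem_PF (p := p)).1 hx
  obtain ⟨y, hy⟩ := IsAlgClosed.exists_pow_nat_eq x (Fact.out : p.Prime).pos
  refine ⟨y, (mem_PF (p := p)).2 ⟨N + 1, ?_⟩, hy⟩
  rw [pow_succ', pow_mul, hy]
  exact hN

theorem stab_PF {p : ℕ} [Fact p.Prime] [CharP k p] (F : IntermediateField k K) :
    Stab F (PF F) := by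
  intro g w hw
  obtain ⟨N, hN⟩ := (mem_PF (p := p)).1 hw
  refine (mem_PF (p := p)).2 ⟨N, ?_⟩
  rw [← map_pow]
  have h1 : g (w ^ p ^ N) = w ^ p ^ N := g.commutes ⟨_, hN⟩
  rw [h1]
  exact hN

theorem next_PF {p : ℕ} [Fact p.Prime] [CharP k p] [IsAlgClosed K] {r : ℕ}
    (F : IntermediateField k K) : next k r (PF F) ≤ next k r F := by
  refine iSup_le fun t => ?_
  choose N hN using fun i => (mem_PF (p := p)).1 (t i).2
  let t' : Fin r → K := fun i => (t i : K) ^ p ^ N i
  have hcl : IsAlgClosed (br k t') := isAlgClosed_br t'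
  have h1 : adjoin k (Set.range fun i => (t i : K)) ≤ br k t' := by
    rw [adjoin_le_iff]
    rintro _ ⟨i, rfl⟩
    exact mem_br_of_pow (pow_pos (Fact.out : p.Prime).pos (N i)) (subset_br t' i)
  have h2 : br k (fun i => (t i : K)) ≤ br k t' := by
    intro z hz
    rw [mem_br] at hz
    refine mem_of_isAlgebraic _ ?_
    obtain ⟨q, hq0, hq⟩ := hz
    refine ⟨q.map (inclusion h1).toRingHom, ?_, ?_⟩
    · rwa [Polynomial.map_ne_zero_iff (inclusion h1).toRingHom.injective]
    · rw [Polynomial.aeval_def, Polynomial.eval₂_map]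
      exact hq
  exact h2.trans (br_le_next t' hN)

end closure

variable {p : ℕ} [Fact p.Prime] [CharP k p] [IsAlgClosed k] [IsAlgClosed K]

/-- the first `κ` forms vanish over `E` (or `y` is already in `E`) -/
def GoodP (p : ℕ) (F E : IntermediateField k K) {n : ℕ} (y : Fin n → K) (κ : ℕ) : Prop :=
  F ≤ E ∧ Stab F E ∧ Perf p E ∧ ((∀ i, y i ∈ E) ∨ ∃ z : Fin n → K, Equi F E y z ∧
    Function.Injective z ∧ ∑ i, z i = 0 ∧ ∀ j, j < κ → gval p z j = 0)

theorem gval_mem {F E : IntermediateField k K} {n : ℕ} {y z : Fin n → K} (hG : Gen F y)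
    (hFE : F ≤ E) (hE : Perf p E) (hz : Equi F E y z) (j : ℕ) : gval p z j ∈ E := by
  refine mem_of_fixed_perf (p := p) hG.alg hFE hE fun g hg => ?_
  unfold gval
  rw [map_sum, ← Equiv.sum_comp (piHom hG g) (fun i => z i ^ (1 + p ^ (2 * j + 1)))]
  refine Finset.sum_congr rfl fun i _ => ?_
  rw [map_pow, hz g hg _ (piHom_spec hG g) i]

theorem actOver {F E : IntermediateField k K} {n : ℕ} {y z : Fin n → K} (hG : Gen F y)
    (hn : 5 ≤ n) (hFE : F ≤ E) (hst : Stab F E) (hE : Perf p E) {i₀ : Fin n} (hy : y i₀ ∉ E)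
    (hz : Equi F E y z) : ActOver E z := by
  intro σ hσ
  obtain ⟨g, hg, hgσ⟩ := exists_lift_even_p (p := p) hG hn hFE hE hst hy σ hσ
  exact ⟨g, hg, fun i => hz g hg σ (fun i => by rw [piHom_spec hG g, hgσ]) i⟩

theorem exists_ne_pow (k : Type*) [Field k] [IsAlgClosed k] {p : ℕ} (hp : 1 < p) :
    ∃ c : k, c ^ p ≠ c := by
  by_contra hcon
  push Not at hcon
  have hinf : Infinite k := IsAlgClosed.instInfinite
  have h1 : (Polynomial.X ^ p - Polynomial.X : Polynomial k) ≠ 0 :=
    FiniteField.X_pow_card_sub_X_ne_zero k hp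
  have h2 : (Polynomial.X ^ p - Polynomial.X : Polynomial k) = 0 := by
    refine Polynomial.funext fun c => ?_
    simp [hcon c]
  exact h1 h2

theorem goodP_start {F : IntermediateField k K} {n : ℕ} {y : Fin n → K} (hG : Gen F y)
    (hn : 5 ≤ n) : GoodP p F (PF F) y 0 := by
  classical
  have hp : p.Prime := Fact.out
  have hK : CharP K p := charP_of_injective_algebraMap (algebraMap k K).injective p
  have hexp : ExpChar K p := ExpChar.prime hp
  refine ⟨le_PF (p := p) F, stab_PF (p := p) F, perf_PF F, Or.inr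
    ⟨fun i => (∑ j, y j) * y i ^ p - (∑ j, y j) ^ p * y i, ?_, ?_, ?_, ?_⟩⟩
  · intro g _ σ hσ i
    have h1 : g (∑ j, y j) = ∑ j, y j := by
      rw [map_sum, ← Equiv.sum_comp σ y]
      exact Finset.sum_congr rfl fun j _ => hσ j
    rw [map_sub, map_mul, map_mul, map_pow, map_pow, h1, hσ i]
  · intro a b hab
    by_contra hne
    obtain ⟨d, hd⟩ : ∃ d : Fin n, d ∉ ({a, b} : Finset (Fin n)) := by
      by_contra hcon
      push Not at hcon
      have h1 : (Finset.univ : Finset (Fin n)) ⊆ {a, b} := fun m _ => hcon m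
      have h2 := Finset.card_le_card h1
      have h3 : ({a, b} : Finset (Fin n)).card ≤ 2 := Finset.card_le_two
      rw [Finset.card_univ, Fintype.card_fin] at h2
      omega
    simp only [Finset.mem_insert, Finset.mem_singleton, not_or] at hd
    obtain ⟨hda, hdb⟩ := hd
    let Q : MvPolynomial (Fin n) k :=
      ((∑ j, MvPolynomial.X j) * MvPolynomial.X a ^ p -
        (∑ j, MvPolynomial.X j) ^ p * MvPolynomial.X a) -
      ((∑ j, MvPolynomial.X j) * MvPolynomial.X b ^ p -
        (∑ j, MvPolynomial.X j) ^ p * MvPolynomial.X b)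
    have hQ : MvPolynomial.aeval y Q = 0 := by
      simp only [Q, map_sub, map_mul, map_sum, map_pow, MvPolynomial.aeval_X]
      rw [sub_eq_zero]
      exact hab
    have hQ0 : Q = 0 := (injective_iff_map_eq_zero _).1 hG.ind Q hQ
    obtain ⟨c, hc⟩ := exists_ne_pow k hp.one_lt
    obtain ⟨v, hv⟩ : ∃ v : Fin n → k, v = fun i => if i = a then 1 else if i = d then c - 1 else 0 :=
      ⟨_, rfl⟩
    have hev : MvPolynomial.eval v Q = 0 := by rw [hQ0, map_zero]
    have hva : v a = 1 := by rw [hv]; simp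
    have hvb : v b = 0 := by
      rw [hv]
      simp only
      rw [if_neg (Ne.symm hne), if_neg (Ne.symm hdb)]
    have hvd : v d = c - 1 := by
      rw [hv]
      simp only
      rw [if_neg hda, if_pos trivial]
    have hs : ∑ i : Fin n, v i = c := by
      rw [← Finset.add_sum_erase _ _ (Finset.mem_univ a),
        ← Finset.add_sum_erase _ _ (Finset.mem_erase.2 ⟨hda, Finset.mem_univ d⟩), hva, hvd,
        Finset.sum_eq_zero]
      · ring
      · intro i hi
        simp only [Finset.mem_erase] at hi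
        rw [hv]
        simp only
        rw [if_neg hi.2.1, if_neg hi.1]
    simp only [Q, map_sub, map_mul, map_sum, map_pow, MvPolynomial.eval_X] at hev
    rw [hs, hva, hvb, zero_pow hp.ne_zero, one_pow] at hev
    apply hc
    linear_combination -hev
  · rw [Finset.sum_sub_distrib, ← Finset.mul_sum, ← Finset.mul_sum, ← sum_pow_char]
    ring
  · intro j hj
    omega

theorem goodP_step {F E : IntermediateField k K} {n κ D M r : ℕ} {y : Fin n → K} (hG : Gen F y)
    (hn : 5 ≤ n) (hM : (M + 1 = n ∧ ¬ p ∣ n) ∨ (M + 2 = n ∧ p ∣ n)) (h : GoodP p F E y κ)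
    (hr1 : 1 ≤ r) (hD : D + 1 ≤ M) (hr : 2 * D ≤ r + κ + 1) : GoodP p F (next k r E) y D := by
  have hp : p.Prime := Fact.out
  have hK : CharP K p := charP_of_injective_algebraMap (algebraMap k K).injective p
  have hexp : ExpChar K p := ExpChar.prime hp
  obtain ⟨hFE, hst, hpe, h⟩ := h
  have hE : E ≤ next k r E := le_next hr1 E
  have hst' : Stab F (next k r E) := stab_next hst
  have hpe' : Perf p (next k r E) := perf_next E
  have hM' : M + 2 ≤ n ∨ (M + 1 = n ∧ ¬ p ∣ n) := by
    rcases hM with h | h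
    · exact Or.inr h
    · exact Or.inl (by omega)
  refine ⟨hFE.trans hE, hst', hpe', ?_⟩
  rcases h with h | ⟨z, hz, hinj, hsum, hp0⟩
  · exact Or.inl fun i => hE (h i)
  · by_cases hy : ∀ i, y i ∈ next k r E
    · exact Or.inl hy
    · right
      push Not at hy
      obtain ⟨i₀, hy⟩ := hy
      obtain ⟨c, hc0, hcE, hc⟩ := stepP (p := p) hr1 hr z (fun j => gval_mem hG hFE hpe hz j) hp0
      have hz' : Equi F (next k r E) y
          (fun i => ∑ l : Fin (D + 1), c l * z i ^ p ^ (2 * (l : ℕ))) := by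
        intro g hg σ hσ i
        rw [map_sum]
        refine Finset.sum_congr rfl fun l _ => ?_
        rw [map_mul, map_pow, hg _ (hcE l), hz.mono hE g hg σ hσ i]
      have hact := actOver (p := p) hG hn (hFE.trans hE) hst' hpe' hy (hz.mono hE)
      have hact' := actOver (p := p) hG hn (hFE.trans hE) hst' hpe' hy hz'
      refine ⟨_, hz', ?_, ?_, hc⟩
      · by_contra hcon
        have h1 := const_of_act (by omega) (fun σ hσ => by
          obtain ⟨g, _, hg⟩ := hact' σ hσ
          exact ⟨g, hg⟩) hcon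
        apply hc0
        refine add_ne hn hM' hD hinj hact.act c fun i j => ?_
        have h2 := h1 i j
        rw [← sub_eq_zero, ← Finset.sum_sub_distrib] at h2
        rw [← h2]
        refine Finset.sum_congr rfl fun x _ => ?_
        rw [sub_pow_char_pow, mul_sub]
      · rw [Finset.sum_comm]
        refine Finset.sum_eq_zero fun l _ => ?_
        rw [← Finset.mul_sum, ← sum_pow_char_pow, hsum, zero_pow (pow_pos hp.pos _).ne', mul_zero]

theorem goodP_finish {F E : IntermediateField k K} {n κ M r : ℕ} {y : Fin n → K} (hG : Gen F y)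
    (hn : 5 ≤ n) (hM : (M + 1 = n ∧ ¬ p ∣ n) ∨ (M + 2 = n ∧ p ∣ n)) (h : GoodP p F E y κ)
    (hr1 : 1 ≤ r) (hr : M ≤ r + κ + 1) (i₀ : Fin n) : y i₀ ∈ next k r E := by
  obtain ⟨hFE, hst, hpe, h⟩ := h
  have hE : E ≤ next k r E := le_next hr1 E
  rcases h with h | ⟨z, hz, hinj, hsum, hp0⟩
  · exact hE (h i₀)
  · by_contra hy
    have hact := actOver (p := p) hG hn (hFE.trans hE) (stab_next hst) (perf_next E) hy (hz.mono hE)
    have hdiff := diff_mem hn hM hr1 hr hinj hact hsum (fun j => gval_mem hG hFE hpe hz j) hp0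
    -- a three-cycle fixing an index
    let a : Fin n := ⟨0, by omega⟩
    let b : Fin n := ⟨1, by omega⟩
    let c : Fin n := ⟨2, by omega⟩
    let d : Fin n := ⟨3, by omega⟩
    have hab : a ≠ b := by simp [a, b, Fin.ext_iff]
    have hac : a ≠ c := by simp [a, c, Fin.ext_iff]
    have hbc : b ≠ c := by simp [b, c, Fin.ext_iff]
    have hda : d ≠ a := by simp [a, d, Fin.ext_iff]
    have hdb : d ≠ b := by simp [b, d, Fin.ext_iff]
    have hdc : d ≠ c := by simp [c, d, Fin.ext_iff]
    have hσ : (Equiv.swap a b * Equiv.swap b c) ∈ alternatingGroup (Fin n) := by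
      rw [Equiv.Perm.mem_alternatingGroup, map_mul, Equiv.Perm.sign_swap hab,
        Equiv.Perm.sign_swap hbc]
      decide
    obtain ⟨g, hg1, hg2⟩ := hact _ hσ
    have h1 := hg1 _ (hdiff a d)
    have e1 : (Equiv.swap a b * Equiv.swap b c) a = b := by
      rw [Equiv.Perm.mul_apply, Equiv.swap_apply_of_ne_of_ne hab hac, Equiv.swap_apply_left]
    have e2 : (Equiv.swap a b * Equiv.swap b c) d = d := by
      rw [Equiv.Perm.mul_apply, Equiv.swap_apply_of_ne_of_ne hdb hdc,
        Equiv.swap_apply_of_ne_of_ne hda hdb]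
    rw [map_sub, hg2, hg2, e1, e2] at h1
    exact hab (hinj (sub_left_injective h1)).symm

/-- iterate `next` -/
noncomputable def nx (k : Type*) {K : Type*} [Field k] [Field K] [Algebra k K] (r : ℕ)
    (E : IntermediateField k K) : ℕ → IntermediateField k K
  | 0 => E
  | i + 1 => next k r (nx k r E i)

theorem goodP_chain {F : IntermediateField k K} {n M r : ℕ} {y : Fin n → K} (hG : Gen F y)
    (hn : 5 ≤ n) (hM : (M + 1 = n ∧ ¬ p ∣ n) ∨ (M + 2 = n ∧ p ∣ n))
    (hr1 : 1 ≤ r) (i : ℕ) :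
    GoodP p F (nx k r (PF F) i) y (min (M - 1) (r - r / 2 ^ i)) := by
  have hM2 : 2 ≤ M := by omega
  induction i with
  | zero =>
    have h1 := goodP_start (p := p) hG hn
    have h2 : min (M - 1) (r - r / 2 ^ 0) = 0 := by simp
    rw [h2]
    exact h1
  | succ i ih =>
    refine goodP_step hG hn hM ih hr1 (by omega) ?_
    have h1 : r / 2 ^ (i + 1) = r / 2 ^ i / 2 := by
      rw [pow_succ, Nat.div_div_eq_div_mul]
    have h2 : r / 2 ^ i ≤ r := Nat.div_le_self _ _
    rw [h1]
    generalize r / 2 ^ i = q at *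
    rcases Nat.le_total (M - 1) (r - q) with h3 | h3
    · rw [min_eq_left h3]
      omega
    · rw [min_eq_right h3]
      omega

theorem nx_mono {r : ℕ} {E E' : IntermediateField k K} (h : E ≤ E') (i : ℕ) :
    nx k r E i ≤ nx k r E' i := by
  induction i with
  | zero => exact h
  | succ i ih => exact next_mono_left ih

theorem nx_PF {q : ℕ} [Fact q.Prime] [CharP k q] {r : ℕ} (F : IntermediateField k K) (i : ℕ) :
    nx k r (PF F) (i + 1) ≤ nx k r F (i + 1) := by
  induction i with
  | zero => exact next_PF (p := q) F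
  | succ i ih => exact next_mono_left ih

theorem nx_M {n r : ℕ} (x : Fin n → K) (i : ℕ) :
    nx k r (adjoin k (Set.range x)) i = M k x r (i + 1) := by
  induction i with
  | zero => rfl
  | succ i ih =>
    change next k r (nx k r _ i) = next k r (M k x r (i + 1))
    rw [ih]

/-- The theorem. -/
theorem layers {n r i : ℕ} (hn5 : 5 ≤ n) (hr : 1 ≤ r)
    (hn : n + r / 2 ^ i ≤ 2 * r + 2 ∨ (p ∣ n ∧ n + r / 2 ^ i ≤ 2 * r + 3)) {x : Fin n → K}
    (hx : AlgebraicIndependent k x) (halg : Algebra.IsAlgebraic (adjoin k (Set.range x)) K)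
    {f : K} (hf : f ^ n + ∑ j : Fin n, x j * f ^ (n - 1 - (j : ℕ)) = 0) :
    f ∈ M k x r (i + 2) := by
  obtain ⟨y, hG, i₀, rfl⟩ := exists_gen hx halg hf
  obtain ⟨m, hm⟩ : ∃ m, (m + 1 = n ∧ ¬ p ∣ n) ∨ (m + 2 = n ∧ p ∣ n) := by
    by_cases h : p ∣ n
    · exact ⟨n - 2, Or.inr ⟨by omega, h⟩⟩
    · exact ⟨n - 1, Or.inl ⟨by omega, h⟩⟩
  have h1 := goodP_finish hG hn5 hm (goodP_chain hG hn5 hm hr i) hr (by
    have h2 : r / 2 ^ i ≤ r := Nat.div_le_self _ _
    have h3 : m + r / 2 ^ i ≤ 2 * r + 1 := by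
      rcases hm with ⟨hm, hpn⟩ | ⟨hm, hpn⟩
      · rcases hn with hn | ⟨h, _⟩
        · omega
        · exact absurd h hpn
      · rcases hn with hn | ⟨_, hn⟩ <;> omega
    rcases Nat.le_total (m - 1) (r - r / 2 ^ i) with h4 | h4
    · rw [min_eq_left h4]
      omega
    · rw [min_eq_right h4]
      omega) i₀
  have h2 : y i₀ ∈ nx k r (PF (adjoin k (Set.range x))) (i + 1) := h1
  have h3 := nx_PF (q := p) (r := r) (adjoin k (Set.range x)) i h2
  rw [nx_M] at h3
  exact h3

end Pool.Agent.LGP
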