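import Pool.Agent.LGP.Perf

/-!
The forms `∑ i, z i ^ (1 + p ^ (2 j + 1))` in characteristic `p`.
-/

namespace Pool.Agent.LGP

open Pool.Agent.Helper85.SC Pool.Agent.SQT IntermediateField

variable {k : Type*} {K : Type*} [Field k] [Field K] [Algebra k K]

/-- `g_j(z)` -/
def gval (p : ℕ) {n : ℕ} (z : Fin n → K) (j : ℕ) : K := ∑ i, z i ^ (1 + p ^ (2 * j + 1))

/-- `H(phi^a z, phi^b z)` -/
def hval (p : ℕ) {n : ℕ} (z : Fin n → K) (a b : ℕ) : K :=
  ∑ i, z i ^ (p ^ (2 * a) + p ^ (2 * b + 1))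

theorem hval_of_le {p : ℕ} [Fact p.Prime] [CharP K p] {n : ℕ} (z : Fin n → K) {a b : ℕ}
    (h : a ≤ b) : hval p z a b = gval p z (b - a) ^ p ^ (2 * a) := by
  unfold hval gval
  rw [sum_pow_char_pow]
  refine Finset.sum_congr rfl fun i _ => ?_
  rw [← pow_mul, add_mul, one_mul, ← pow_add]
  congr 3
  omega

theorem hval_of_lt {p : ℕ} [Fact p.Prime] [CharP K p] {n : ℕ} (z : Fin n → K) {a b : ℕ}
    (h : b < a) : hval p z a b = gval p z (a - b - 1) ^ p ^ (2 * b + 1) := by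
  unfold hval gval
  rw [sum_pow_char_pow]
  refine Finset.sum_congr rfl fun i _ => ?_
  rw [← pow_mul, add_mul, one_mul, ← pow_add, add_comm]
  congr 3
  omega

theorem hval_mem {p : ℕ} [Fact p.Prime] [CharP K p] (F₀ : IntermediateField k K) {n N : ℕ}
    (z : Fin n → K) (hz : ∀ j, j < N → gval p z j ∈ F₀) {a b : ℕ} (ha : a ≤ N) (hb : b < a + N) :
    hval p z a b ∈ F₀ := by
  rcases Nat.lt_or_ge b a with h | h
  · rw [hval_of_lt z h]
    exact pow_mem (hz _ (by omega)) _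
  · rw [hval_of_le z h]
    exact pow_mem (hz _ (by omega)) _

theorem gval_transform {p : ℕ} [Fact p.Prime] [CharP K p] {n N : ℕ} (z : Fin n → K)
    (c : Fin N → K) (j : ℕ) :
    gval p (fun i => ∑ l, c l * z i ^ p ^ (2 * (l : ℕ))) j =
      ∑ l, ∑ l', c l * c l' ^ p ^ (2 * j + 1) * hval p z l (l' + j) := by
  unfold gval hval
  have h1 : ∀ i, (∑ l, c l * z i ^ p ^ (2 * (l : ℕ))) ^ (1 + p ^ (2 * j + 1)) =
      ∑ l, ∑ l', c l * c l' ^ p ^ (2 * j + 1) *
        z i ^ (p ^ (2 * (l : ℕ)) + p ^ (2 * ((l' : ℕ) + j) + 1)) := by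
    intro i
    rw [pow_add, pow_one, sum_pow_char_pow, Finset.sum_mul_sum]
    refine Finset.sum_congr rfl fun l _ => Finset.sum_congr rfl fun l' _ => ?_
    rw [mul_pow, ← pow_mul, ← pow_add]
    have h2 : 2 * (l' : ℕ) + (2 * j + 1) = 2 * ((l' : ℕ) + j) + 1 := by ring
    rw [h2, pow_add]
    ring
  rw [Finset.sum_congr rfl fun i _ => h1 i, Finset.sum_comm]
  refine Finset.sum_congr rfl fun l _ => ?_
  rw [Finset.sum_comm]
  refine Finset.sum_congr rfl fun l' _ => ?_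
  rw [Finset.mul_sum]

theorem zero_of_forms {p : ℕ} [Fact p.Prime] [CharP K p] (F₀ : IntermediateField k K)
    [IsAlgClosed F₀] {n D : ℕ} (w : Fin n → K) (hw : ∀ j, j < 2 * D → gval p w j ∈ F₀) :
    ∃ c : Fin (D + 1) → K, c ≠ 0 ∧ (∀ j, c j ∈ F₀) ∧
      ∀ j, j < D → gval p (fun i => ∑ l, c l * w i ^ p ^ (2 * (l : ℕ))) j = 0 := by
  classical
  rcases Nat.eq_zero_or_pos D with rfl | hD
  · refine ⟨fun _ => 1, fun h => one_ne_zero (congrFun h 0), fun _ => one_mem _, fun j hj => ?_⟩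
    omega
  have hmem : ∀ (l l' : Fin (D + 1)) (j : Fin D), hval p w l ((l' : ℕ) + j) ∈ F₀ := by
    intro l l' j
    have h1 := l.2
    have h2 := l'.2
    have h3 := j.2
    rcases Nat.lt_or_ge ((l' : ℕ) + j) l with h | h
    · rw [hval_of_lt w h]
      exact pow_mem (hw _ (by omega)) _
    · rw [hval_of_le w h]
      exact pow_mem (hw _ (by omega)) _
  let P : Fin D → MvPolynomial (Fin (D + 1)) F₀ := fun j =>
    ∑ l : Fin (D + 1), ∑ l' : Fin (D + 1), MvPolynomial.C ⟨_, hmem l l' j⟩ *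
      (MvPolynomial.X l * MvPolynomial.X l' ^ p ^ (2 * (j : ℕ) + 1))
  obtain ⟨c, hc0, hcF, hc⟩ := exists_zero_field F₀ P
    (fun j => 1 + p ^ (2 * (j : ℕ) + 1))
    (fun j => by omega) (fun j => by
      refine MvPolynomial.IsHomogeneous.sum _ _ _ fun l _ =>
        MvPolynomial.IsHomogeneous.sum _ _ _ fun l' _ => ?_
      have h1 := (MvPolynomial.isHomogeneous_X (R := F₀) l).mul
        ((MvPolynomial.isHomogeneous_X (R := F₀) l').pow (p ^ (2 * (j : ℕ) + 1)))
      have h2 := (MvPolynomial.isHomogeneous_C (Fin (D + 1)) (⟨_, hmem l l' j⟩ : F₀)).mul h1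
      simpa using h2)
  refine ⟨c, hc0, hcF, fun j hj => ?_⟩
  have h3 := hc ⟨j, hj⟩
  simp only [P, map_sum, map_mul, map_pow, MvPolynomial.map_C, MvPolynomial.map_X,
    MvPolynomial.eval_C, MvPolynomial.eval_X] at h3
  rw [gval_transform, ← h3]
  refine Finset.sum_congr rfl fun l _ => Finset.sum_congr rfl fun l' _ => ?_
  rw [mul_comm]
  rfl

/-- scaling with arbitrary weights -/
theorem exists_scale' [IsAlgClosed K] {E : IntermediateField k K} {κ r N : ℕ}
    (hr1 : 1 ≤ r) (hr : N ≤ r + κ + 1) (s : ℕ → K) (ω : ℕ → ℕ) (hω : ∀ j, 0 < ω j)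
    (hE : ∀ l, s l ∈ E) (hp : ∀ l, l < κ → s l = 0) :
    ∃ (a : K) (t : Fin r → K), a ≠ 0 ∧ a ∈ next k r E ∧ (∀ i, t i ∈ E) ∧
      ∀ l, l < N → a ^ ω l * s l ∈ br k t := by
  by_cases h0 : s κ = 0
  · refine ⟨1, fun j => s (κ + 1 + j), one_ne_zero, one_mem _, fun j => hE _, fun l hl => ?_⟩
    rw [one_pow, one_mul]
    rcases lt_trichotomy l κ with h | h | h
    · rw [hp l h]
      exact zero_mem _
    · rw [h, h0]
      exact zero_mem _
    · have h1 := subset_br (k := k) (fun j : Fin r => s (κ + 1 + j)) ⟨l - (κ + 1), by omega⟩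
      have h2 : κ + 1 + (l - (κ + 1)) = l := by omega
      simpa only [h2] using h1
  · obtain ⟨a, ha⟩ := IsAlgClosed.exists_pow_nat_eq ((s κ)⁻¹) (hω κ)
    have ha0 : a ≠ 0 := by
      rintro rfl
      rw [zero_pow (hω κ).ne'] at ha
      exact inv_ne_zero h0 ha.symm
    refine ⟨a, fun j => s (κ + 1 + j) ^ ω κ / s κ ^ ω (κ + 1 + (j : ℕ)), ha0, ?_,
      fun j => div_mem (pow_mem (hE _) _) (pow_mem (hE _) _), fun l hl => ?_⟩
    · refine mem_next_of_algebraic hr1 (hE κ) ?_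
      refine IsAlgebraic.of_pow (hω κ) ?_
      rw [ha]
      exact isAlgebraic_algebraMap (⟨_, inv_mem (subset_adjoin k _ (Set.mem_singleton _))⟩ :
        adjoin k {s κ})
    · rcases lt_trichotomy l κ with h | h | h
      · rw [hp l h, mul_zero]
        exact zero_mem _
      · rw [h, ha, inv_mul_cancel₀ h0]
        exact one_mem _
      · refine mem_br_of_pow (N := ω κ) (hω κ) ?_
        have h1 := subset_br (k := k) (fun j : Fin r =>
          s (κ + 1 + j) ^ ω κ / s κ ^ ω (κ + 1 + (j : ℕ))) ⟨l - (κ + 1), by omega⟩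
        have h2 : κ + 1 + (l - (κ + 1)) = l := by omega
        simp only [h2] at h1
        have h3 : (a ^ ω l * s l) ^ ω κ = s l ^ ω κ / s κ ^ ω l := by
          rw [mul_pow, ← pow_mul, mul_comm (ω l), pow_mul, ha, inv_pow, mul_comm,
            div_eq_mul_inv]
        rw [h3]
        exact h1

theorem gval_scale {p n : ℕ} (z : Fin n → K) (a : K) (j : ℕ) :
    gval p (fun i => a * z i) j = a ^ (1 + p ^ (2 * j + 1)) * gval p z j := by
  unfold gval
  rw [Finset.mul_sum]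
  exact Finset.sum_congr rfl fun i _ => mul_pow _ _ _

/-- The step in characteristic `p`. -/
theorem stepP {p : ℕ} [Fact p.Prime] [CharP K p] [IsAlgClosed K] {E : IntermediateField k K}
    {n κ D r : ℕ} (hr1 : 1 ≤ r) (hr : 2 * D ≤ r + κ + 1) (z : Fin n → K)
    (hE : ∀ j, gval p z j ∈ E) (hp : ∀ j, j < κ → gval p z j = 0) :
    ∃ c : Fin (D + 1) → K, c ≠ 0 ∧ (∀ j, c j ∈ next k r E) ∧
      ∀ j, j < D → gval p (fun i => ∑ l, c l * z i ^ p ^ (2 * (l : ℕ))) j = 0 := by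
  obtain ⟨a, t, ha0, ha, ht, hat⟩ := exists_scale' (κ := κ) (N := 2 * D) hr1 hr
    (fun j => gval p z j) (fun j => 1 + p ^ (2 * j + 1)) (fun j => by omega) hE hp
  have : IsAlgClosed (br k t) := isAlgClosed_br t
  obtain ⟨c, hc0, hcF, hc⟩ := zero_of_forms (D := D) (br k t) (fun i => a * z i)
    (fun j hj => by
      rw [gval_scale]
      exact hat j hj)
  refine ⟨fun l => c l * a ^ p ^ (2 * (l : ℕ)), ?_, fun j => ?_, fun j hj => ?_⟩
  · intro h
    apply hc0
    funext j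
    have h1 := congrFun h j
    exact (mul_eq_zero.1 h1).resolve_right (pow_ne_zero _ ha0)
  · exact mul_mem (br_le_next t ht (hcF j)) (pow_mem ha _)
  · rw [← hc j hj]
    congr 1
    funext i
    refine Finset.sum_congr rfl fun l _ => ?_
    rw [mul_pow, mul_assoc]

end Pool.Agent.LGP
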