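import Mathlib

/-!
Linear relations over a finite field of an equivariant family, and additive polynomials.
-/

namespace Pool.Agent.LGP

open Finset

variable {K : Type*} [Field K]

/-- Relations with coefficients fixed by the group are constant. -/
theorem rel_const {𝔽 : Type*} [Field 𝔽] (ι : 𝔽 →+* K) {n : ℕ} (hn : 5 ≤ n) {z : Fin n → K}
    (hinj : Function.Injective z)
    (hact : ∀ σ ∈ alternatingGroup (Fin n), ∃ g : K →+* K, (∀ a, g (ι a) = ι a) ∧
      ∀ i, g (z i) = z (σ i))
    (v : Fin n → 𝔽) (hv : ∑ i, ι (v i) * z i = 0) : ∀ i j, v i = v j := by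
  classical
  intro a b
  by_contra hab'
  have hab : a ≠ b := fun h => hab' (by rw [h])
  -- three more indices
  obtain ⟨c, hc⟩ : ∃ c : Fin n, c ∉ ({a, b} : Finset (Fin n)) := by
    by_contra hcon
    push Not at hcon
    have h1 : (Finset.univ : Finset (Fin n)) ⊆ {a, b} := fun m _ => hcon m
    have h2 := Finset.card_le_card h1
    have h3 : ({a, b} : Finset (Fin n)).card ≤ 2 := Finset.card_le_two
    rw [Finset.card_univ, Fintype.card_fin] at h2
    omega
  obtain ⟨d, hd⟩ : ∃ c' : Fin n, c' ∉ ({a, b, c} : Finset (Fin n)) := by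
    by_contra hcon
    push Not at hcon
    have h1 : (Finset.univ : Finset (Fin n)) ⊆ {a, b, c} := fun m _ => hcon m
    have h2 := Finset.card_le_card h1
    have h3 : ({a, b, c} : Finset (Fin n)).card ≤ 3 := Finset.card_le_three
    rw [Finset.card_univ, Fintype.card_fin] at h2
    omega
  obtain ⟨e, he⟩ : ∃ c' : Fin n, c' ∉ ({a, b, c, d} : Finset (Fin n)) := by
    by_contra hcon
    push Not at hcon
    have h1 : (Finset.univ : Finset (Fin n)) ⊆ {a, b, c, d} := fun m _ => hcon m
    have h2 := Finset.card_le_card h1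
    have h3 : ({a, b, c, d} : Finset (Fin n)).card ≤ 4 := Finset.card_le_four
    rw [Finset.card_univ, Fintype.card_fin] at h2
    omega
  simp only [Finset.mem_insert, Finset.mem_singleton, not_or] at hc hd he
  obtain ⟨hca, hcb⟩ := hc
  obtain ⟨hda, hdb, hdc⟩ := hd
  obtain ⟨hea, heb, hec, hed⟩ := he
  -- relations for all even permutations
  have hS : ∀ σ ∈ alternatingGroup (Fin n), ∑ i, ι (v i) * z (σ i) = 0 := by
    intro σ hσ
    obtain ⟨g, hg1, hg2⟩ := hact σ hσ
    have h1 := congrArg g hv
    rw [map_sum, map_zero] at h1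
    rw [← h1]
    refine Finset.sum_congr rfl fun i _ => ?_
    rw [map_mul, hg1, hg2]
  set τ : Equiv.Perm (Fin n) := Equiv.swap a b * Equiv.swap b c with hτ
  set ρ : Equiv.Perm (Fin n) := Equiv.swap b d * Equiv.swap d e with hρ
  have hτA : τ ∈ alternatingGroup (Fin n) := by
    rw [Equiv.Perm.mem_alternatingGroup, map_mul, Equiv.Perm.sign_swap hab,
      Equiv.Perm.sign_swap (Ne.symm hcb)]
    decide
  have hρA : ρ ∈ alternatingGroup (Fin n) := by
    rw [Equiv.Perm.mem_alternatingGroup, map_mul, Equiv.Perm.sign_swap (Ne.symm hdb),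
      Equiv.Perm.sign_swap (Ne.symm hed)]
    decide
  let u : Fin n → 𝔽 := fun i => v i - v (τ⁻¹ i)
  have hu : ∀ σ ∈ alternatingGroup (Fin n), ∑ i, ι (u i) * z (σ i) = 0 := by
    intro σ hσ
    have h1 : ∑ i, ι (v (τ⁻¹ i)) * z (σ i) = ∑ i, ι (v i) * z ((σ * τ) i) := by
      rw [← Equiv.sum_comp τ (fun i => ι (v (τ⁻¹ i)) * z (σ i))]
      refine Finset.sum_congr rfl fun i _ => ?_
      have h9 : τ⁻¹ (τ i) = i := Equiv.symm_apply_apply τ i
      rw [h9]
      rfl
    have h2 : ∑ i, ι (u i) * z (σ i) =
        ∑ i, ι (v i) * z (σ i) - ∑ i, ι (v (τ⁻¹ i)) * z (σ i) := by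
      rw [← Finset.sum_sub_distrib]
      refine Finset.sum_congr rfl fun i _ => ?_
      simp only [u, map_sub]
      ring
    rw [h2, hS σ hσ, h1, hS _ (mul_mem hσ hτA), sub_zero]
  have h0 : ∀ i, i ≠ a → i ≠ b → i ≠ c → u i = 0 := by
    intro i hia hib hic
    have h1 : τ i = i := by
      rw [hτ, Equiv.Perm.mul_apply, Equiv.swap_apply_of_ne_of_ne hib hic,
        Equiv.swap_apply_of_ne_of_ne hia hib]
    have h2 : τ⁻¹ i = i := by
      rw [Equiv.Perm.inv_eq_iff_eq, h1]
    simp only [u, h2, sub_self]
  have hub : u b = v b - v a := by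
    have h1 : τ a = b := by
      rw [hτ, Equiv.Perm.mul_apply, Equiv.swap_apply_of_ne_of_ne hab (Ne.symm hca),
        Equiv.swap_apply_left]
    have h2 : τ⁻¹ b = a := by
      rw [Equiv.Perm.inv_eq_iff_eq, h1]
    simp only [u, h2]
  have hfin : ι (u b) * (z b - z d) = 0 := by
    have h1 := hu 1 (one_mem _)
    have h2 := hu ρ hρA
    have h3 : ∑ i, ι (u i) * (z i - z (ρ i)) = 0 := by
      have h4 : ∑ i, ι (u i) * (z i - z (ρ i)) =
          ∑ i, ι (u i) * z ((1 : Equiv.Perm (Fin n)) i) - ∑ i, ι (u i) * z (ρ i) := by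
        rw [← Finset.sum_sub_distrib]
        refine Finset.sum_congr rfl fun i _ => ?_
        rw [Equiv.Perm.one_apply]
        ring
      rw [h4, h1, h2, sub_zero]
    rw [Finset.sum_eq_single b] at h3
    · have h5 : ρ b = d := by
        rw [hρ, Equiv.Perm.mul_apply,
          Equiv.swap_apply_of_ne_of_ne (Ne.symm hdb) (Ne.symm heb), Equiv.swap_apply_left]
      rwa [h5] at h3
    · intro i _ hib
      by_cases hia : i = a
      · have h6 : ρ a = a := by
          rw [hρ, Equiv.Perm.mul_apply,
            Equiv.swap_apply_of_ne_of_ne (Ne.symm hda) (Ne.symm hea),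
            Equiv.swap_apply_of_ne_of_ne hab (Ne.symm hda)]
        rw [hia, h6, sub_self, mul_zero]
      · by_cases hic : i = c
        · have h6 : ρ c = c := by
            rw [hρ, Equiv.Perm.mul_apply,
              Equiv.swap_apply_of_ne_of_ne (Ne.symm hdc) (Ne.symm hec),
              Equiv.swap_apply_of_ne_of_ne hcb (Ne.symm hdc)]
          rw [hic, h6, sub_self, mul_zero]
        · rw [h0 i hia hib hic, map_zero, zero_mul]
    · intro h
      exact absurd (Finset.mem_univ _) h
  rcases mul_eq_zero.1 hfin with h | h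
  · rw [map_eq_zero, hub, sub_eq_zero] at h
    exact hab' h.symm
  · exact hdb (hinj (sub_eq_zero.1 h)).symm

/-- An additive polynomial of small degree does not vanish on the differences. -/
theorem additive_ne_zero {𝔽 : Type*} [Field 𝔽] [Fintype 𝔽] (ι : 𝔽 →+* K) {p q n M N : ℕ}
    [Fact p.Prime] [CharP K p] (hq : Fintype.card 𝔽 = p ^ q) (hq0 : 0 < q) (hn : 5 ≤ n)
    (hM : M + 2 ≤ n ∨ (M + 1 = n ∧ ¬ p ∣ n)) (hN : N ≤ M)
    {z : Fin n → K} (hinj : Function.Injective z)
    (hact : ∀ σ ∈ alternatingGroup (Fin n), ∃ g : K →+* K, (∀ a, g (ι a) = ι a) ∧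
      ∀ i, g (z i) = z (σ i))
    (c : Fin N → K)
    (hc : ∀ i j, ∑ l, c l * (z i - z j) ^ p ^ (q * (l : ℕ)) = 0) : c = 0 := by
  classical
  have hp : p.Prime := Fact.out
  have hp1 : 1 < p := hp.one_lt
  have hexp : ExpChar K p := ExpChar.prime hp
  let last : Fin n := ⟨n - 1, by omega⟩
  let emb : Fin M → Fin n := fun i => ⟨i, by have := i.2; omega⟩
  have hemb : ∀ i, emb i ≠ last := by
    intro i h
    have h1 := congrArg Fin.val h
    have h2 := i.2
    simp only [emb, last] at h1
    omega
  have hemb_inj : Function.Injective emb := by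
    intro i j h
    have h1 := congrArg Fin.val h
    exact Fin.ext h1
  -- the map
  let T : (Fin M → 𝔽) → K := fun v => ∑ i, ι (v i) * (z (emb i) - z last)
  have hTsub : ∀ v v', T v - T v' = T (v - v') := by
    intro v v'
    simp only [T]
    rw [← Finset.sum_sub_distrib]
    refine Finset.sum_congr rfl fun i _ => ?_
    rw [Pi.sub_apply, map_sub]
    ring
  have hT0 : ∀ v, T v = 0 → v = 0 := by
    intro v hv
    let w : Fin n → 𝔽 := fun i =>
      if h : (i : ℕ) < M then v ⟨i, h⟩ else if i = last then - ∑ j, v j else 0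
    have hw1 : ∀ i : Fin M, w (emb i) = v i := by
      intro i
      simp only [w, emb, i.2, dite_true]
    have hlastM : ¬ ((last : Fin n) : ℕ) < M := by
      simp only [last]
      omega
    have hw2 : w last = - ∑ j, v j := by
      simp only [w, hlastM, dite_false, if_true]
    have hw3 : ∀ i : Fin n, ¬ (i : ℕ) < M → i ≠ last → w i = 0 := by
      intro i h1 h2
      simp only [w, h1, dite_false, h2, if_false]
    have hsplit : ∀ f : Fin n → K, (∀ i : Fin n, ¬ (i : ℕ) < M → i ≠ last → f i = 0) →
        ∑ i, f i = ∑ i : Fin M, f (emb i) + f last := by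
      intro f hf
      have h1 : ∑ i, f i = ∑ i ∈ insert last (Finset.univ.image emb), f i := by
        symm
        refine Finset.sum_subset (Finset.subset_univ _) fun i _ hi => ?_
        rw [Finset.mem_insert, Finset.mem_image, not_or] at hi
        refine hf i (fun h => hi.2 ⟨⟨i, h⟩, Finset.mem_univ _, rfl⟩) hi.1
      rw [h1, Finset.sum_insert, Finset.sum_image (fun i _ j _ h => hemb_inj h), add_comm]
      rw [Finset.mem_image]
      rintro ⟨i, _, hi⟩
      exact hemb i hi
    have hrel : ∑ i, ι (w i) * z i = 0 := by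
      rw [hsplit (fun i => ι (w i) * z i) (fun i h1 h2 => by
        rw [hw3 i h1 h2, map_zero, zero_mul])]
      have h1 : T v = ∑ i : Fin M, ι (w (emb i)) * z (emb i) + ι (w last) * z last := by
        simp only [T]
        rw [hw2, map_neg, map_sum, neg_mul, Finset.sum_mul, ← sub_eq_add_neg,
          ← Finset.sum_sub_distrib]
        refine Finset.sum_congr rfl fun i _ => ?_
        rw [hw1]
        ring
      rw [← h1, hv]
    have hconst := rel_const ι hn hinj hact w hrel
    -- the constant is zero
    have hw0 : w last = 0 := by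
      rcases hM with hM | ⟨hM, hpn⟩
      · have h1 := hconst last ⟨M, by omega⟩
        rw [h1]
        refine hw3 _ (by simp) ?_
        intro h
        have h2 := congrArg Fin.val h
        simp only [last] at h2
        omega
      · have h1 : ∀ i : Fin M, v i = w last := fun i => by rw [← hw1 i]; exact hconst _ _
        have h2 : w last = - (M • w last) := by
          conv_lhs => rw [hw2]
          rw [Finset.sum_congr rfl fun i _ => h1 i, Finset.sum_const, Finset.card_univ,
            Fintype.card_fin]
        have h3 : (n : K) * ι (w last) = 0 := by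
          have h4 := congrArg ι h2
          rw [map_neg, map_nsmul, nsmul_eq_mul] at h4
          have h5 : (n : K) = (M : K) + 1 := by
            rw [← hM]
            push_cast
            ring
          rw [h5]
          linear_combination h4
        rcases mul_eq_zero.1 h3 with h4 | h4
        · exact absurd ((CharP.cast_eq_zero_iff K p n).1 h4) hpn
        · rwa [map_eq_zero] at h4
    funext i
    rw [← hw1 i, hconst (emb i) last, hw0]
    rfl
  have hTinj : Function.Injective T := by
    intro v v' h
    have h1 : T (v - v') = 0 := by rw [← hTsub, h, sub_self]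
    exact sub_eq_zero.1 (hT0 _ h1)
  -- the additive polynomial
  let A : Polynomial K := ∑ l : Fin N, Polynomial.C (c l) * Polynomial.X ^ p ^ (q * (l : ℕ))
  have hAeval : ∀ x, A.eval x = ∑ l, c l * x ^ p ^ (q * (l : ℕ)) := by
    intro x
    simp [A, Polynomial.eval_finsetSum]
  have hι : ∀ (a : 𝔽) (l : ℕ), (ι a) ^ p ^ (q * l) = ι a := by
    intro a l
    rw [← map_pow, pow_mul, ← hq, FiniteField.pow_card_pow]
  have hroot : ∀ v, A.eval (T v) = 0 := by
    intro v
    rw [hAeval]
    have h1 : ∀ l : Fin N, c l * (T v) ^ p ^ (q * (l : ℕ)) =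
        ∑ i, ι (v i) * (c l * (z (emb i) - z last) ^ p ^ (q * (l : ℕ))) := by
      intro l
      simp only [T]
      rw [sum_pow_char_pow, Finset.mul_sum]
      refine Finset.sum_congr rfl fun i _ => ?_
      rw [mul_pow, hι]
      ring
    rw [Finset.sum_congr rfl fun l _ => h1 l, Finset.sum_comm]
    refine Finset.sum_eq_zero fun i _ => ?_
    rw [← Finset.mul_sum, hc, mul_zero]
  have hA0 : A = 0 := by
    by_contra hA
    have h1 : Fintype.card (Fin M → 𝔽) ≤ A.natDegree := by
      calc Fintype.card (Fin M → 𝔽) = (Finset.univ.image T).card := by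
            rw [Finset.card_image_of_injective _ hTinj, Finset.card_univ]
        _ ≤ A.roots.toFinset.card := by
            refine Finset.card_le_card fun x hx => ?_
            obtain ⟨v, _, rfl⟩ := Finset.mem_image.1 hx
            rw [Multiset.mem_toFinset, Polynomial.mem_roots hA]
            exact hroot v
        _ ≤ Multiset.card A.roots := Multiset.toFinset_card_le _
        _ ≤ A.natDegree := Polynomial.card_roots' A
    have h2 : Fintype.card (Fin M → 𝔽) = p ^ (q * M) := by
      rw [Fintype.card_fun, hq, Fintype.card_fin, ← pow_mul]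
    rcases Nat.eq_zero_or_pos N with hN0 | hN0
    · subst hN0
      apply hA
      simp [A]
    · have h3 : A.natDegree ≤ p ^ (q * (N - 1)) := by
        refine Polynomial.natDegree_sum_le_of_forall_le _ _ fun l _ => ?_
        refine (Polynomial.natDegree_C_mul_X_pow_le _ _).trans ?_
        refine Nat.pow_le_pow_right hp.pos (Nat.mul_le_mul_left _ ?_)
        have := l.2
        omega
      have h4 : p ^ (q * (N - 1)) < p ^ (q * M) :=
        Nat.pow_lt_pow_right hp1 (Nat.mul_lt_mul_of_pos_left (by omega) hq0)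
      omega
  funext l
  have h1 := congrArg (fun P => Polynomial.coeff P (p ^ (q * (l : ℕ)))) hA0
  simp only [A, Polynomial.finsetSum_coeff, Polynomial.coeff_C_mul, Polynomial.coeff_X_pow,
    Polynomial.coeff_zero] at h1
  rw [Finset.sum_eq_single l] at h1
  · simpa using h1
  · intro b _ hb
    rw [if_neg, mul_zero]
    intro h
    have h2 := Nat.pow_right_injective hp1 h
    have h3 := Nat.eq_of_mul_eq_mul_left hq0 h2
    exact hb (Fin.ext h3.symm)
  · intro h
    exact absurd (Finset.mem_univ _) h

end Pool.Agent.LGP
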