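import Pool.Agent.LGP.Form
import Pool.Agent.LGP.Rel

/-!
The orthogonal complement of the powers of an equivariant family; the last step.
-/

namespace Pool.Agent.LGP

open Pool.Agent.Helper85.SC Pool.Agent.SQT IntermediateField

variable {k : Type*} {K : Type*} [Field k] [Field K] [Algebra k K]

/-- even permutations of the family are induced by homomorphisms over `k` -/
def Act (k : Type*) {K : Type*} [Field k] [Field K] [Algebra k K] {n : ℕ} (z : Fin n → K) : Prop :=
  ∀ σ ∈ alternatingGroup (Fin n), ∃ g : K →+* K,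
    (∀ a : k, g (algebraMap k K a) = algebraMap k K a) ∧ ∀ i, g (z i) = z (σ i)

/-- even permutations of the family are induced by homomorphisms over `E` -/
def ActOver (E : IntermediateField k K) {n : ℕ} (z : Fin n → K) : Prop :=
  ∀ σ ∈ alternatingGroup (Fin n), ∃ g : K →+* K, (∀ x ∈ E, g x = x) ∧ ∀ i, g (z i) = z (σ i)

theorem ActOver.act {E : IntermediateField k K} {n : ℕ} {z : Fin n → K} (h : ActOver E z) :
    Act k z := by
  intro σ hσ
  obtain ⟨g, h1, h2⟩ := h σ hσ
  exact ⟨g, fun a => h1 _ (E.algebraMap_mem a), h2⟩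

theorem ActOver.smul {E : IntermediateField k K} {n : ℕ} {z : Fin n → K} (h : ActOver E z)
    {a : K} (ha : a ∈ E) : ActOver E (fun i => a * z i) := by
  intro σ hσ
  obtain ⟨g, h1, h2⟩ := h σ hσ
  exact ⟨g, h1, fun i => by rw [map_mul, h1 a ha, h2]⟩

theorem exists_hom_galois (k : Type*) [Field k] (p : ℕ) [Fact p.Prime] [CharP k p]
    [IsAlgClosed k] : Nonempty (GaloisField p 2 →+* k) := by
  let _ : Algebra (ZMod p) k := ZMod.algebra k p
  exact ⟨(IsAlgClosed.lift (R := ZMod p) (S := GaloisField p 2) (M := k)).toRingHom⟩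

/-- additive polynomials of small degree do not vanish on the differences -/
theorem add_ne {p : ℕ} [Fact p.Prime] [CharP k p] [IsAlgClosed k] {n M N : ℕ} (hn : 5 ≤ n)
    (hM : M + 2 ≤ n ∨ (M + 1 = n ∧ ¬ p ∣ n)) (hN : N ≤ M)
    {z : Fin n → K} (hinj : Function.Injective z) (hact : Act k z) (c : Fin N → K)
    (hc : ∀ i j, ∑ l, c l * (z i - z j) ^ p ^ (2 * (l : ℕ)) = 0) : c = 0 := by
  classical
  have hK : CharP K p := charP_of_injective_algebraMap (algebraMap k K).injective p
  obtain ⟨ι⟩ := exists_hom_galois k p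
  have : Fintype (GaloisField p 2) := Fintype.ofFinite _
  refine additive_ne_zero (𝔽 := GaloisField p 2) ((algebraMap k K).comp ι) (q := 2) ?_ (by norm_num)
    hn hM hN hinj ?_ c hc
  · rw [← Nat.card_eq_fintype_card, GaloisField.card p 2 (by norm_num)]
  · intro σ hσ
    obtain ⟨g, h1, h2⟩ := hact σ hσ
    exact ⟨g, fun a => h1 _, h2⟩

/-- the odd powers -/
theorem add_ne_odd {p : ℕ} [Fact p.Prime] [CharP k p] [IsAlgClosed k] [IsAlgClosed K] {n M N : ℕ}
    (hn : 5 ≤ n) (hM : M + 2 ≤ n ∨ (M + 1 = n ∧ ¬ p ∣ n)) (hN : N ≤ M)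
    {z : Fin n → K} (hinj : Function.Injective z) (hact : Act k z) (c : Fin N → K)
    (hc : ∀ i j, ∑ l, c l * (z i - z j) ^ p ^ (2 * (l : ℕ) + 1) = 0) : c = 0 := by
  have hp : p.Prime := Fact.out
  have hK : CharP K p := charP_of_injective_algebraMap (algebraMap k K).injective p
  have : ExpChar K p := ExpChar.prime hp
  choose d hd using fun l => IsAlgClosed.exists_pow_nat_eq (c l) hp.pos
  have h1 : d = 0 := by
    refine add_ne hn hM hN hinj hact d fun i j => ?_
    have h2 : (∑ l, d l * (z i - z j) ^ p ^ (2 * (l : ℕ))) ^ p = 0 := by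
      rw [← hc i j, sum_pow_char]
      refine Finset.sum_congr rfl fun l _ => ?_
      rw [mul_pow, hd, ← pow_mul, ← pow_succ]
    exact pow_eq_zero_iff hp.ne_zero |>.1 h2
  funext l
  rw [← hd, h1]
  simp [hp.ne_zero]

/-- a vector orthogonal to the odd powers is constant -/
theorem const_of_orth {p : ℕ} [Fact p.Prime] [CharP k p] [IsAlgClosed k] [IsAlgClosed K]
    {n M : ℕ} (hn : 5 ≤ n) (hM : (M + 1 = n ∧ ¬ p ∣ n) ∨ (M + 2 = n ∧ p ∣ n))
    {w : Fin n → K} (hinj : Function.Injective w) (hact : Act k w) (hsum : ∑ i, w i = 0)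
    (u : Fin n → K) (hu : ∑ i, u i = 0)
    (hub : ∀ b, b < M → ∑ i, u i * w i ^ p ^ (2 * b + 1) = 0) : ∀ i j, u i = u j := by
  classical
  have hp : p.Prime := Fact.out
  have hK : CharP K p := charP_of_injective_algebraMap (algebraMap k K).injective p
  have : ExpChar K p := ExpChar.prime hp
  let A : Matrix (Fin (M + 1)) (Fin n) K := fun b i => Fin.cases 1 (fun b' : Fin M => w i ^ p ^ (2 * (b' : ℕ) + 1)) b
  have hA0 : ∀ i, A 0 i = 1 := fun i => rfl
  have hAs : ∀ (b : Fin M) i, A b.succ i = w i ^ p ^ (2 * (b : ℕ) + 1) := fun b i => rfl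
  have hli : LinearIndependent K A.row := by
    rw [Fintype.linearIndependent_iff]
    intro c hc
    have h1 : ∀ i, c 0 + ∑ b : Fin M, c b.succ * w i ^ p ^ (2 * (b : ℕ) + 1) = 0 := by
      intro i
      have h2 := congrFun hc i
      rw [Fin.sum_univ_succ] at h2
      simp only [Pi.add_apply, Finset.sum_apply, Pi.smul_apply, smul_eq_mul, Pi.zero_apply,
        Matrix.row] at h2
      rw [hA0, mul_one] at h2
      rw [← h2]
      simp only [hAs]
    have h3 : (fun b : Fin M => c b.succ) = 0 := by
      refine add_ne_odd (p := p) (M := M) hn ?_ le_rfl hinj hact _ fun i j => ?_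
      · rcases hM with h | h
        · exact Or.inr h
        · exact Or.inl (by omega)
      · have h4 := h1 i
        have h5 := h1 j
        have h6 : ∑ l : Fin M, c l.succ * (w i - w j) ^ p ^ (2 * (l : ℕ) + 1) =
            ∑ l : Fin M, c l.succ * w i ^ p ^ (2 * (l : ℕ) + 1) -
            ∑ l : Fin M, c l.succ * w j ^ p ^ (2 * (l : ℕ) + 1) := by
          rw [← Finset.sum_sub_distrib]
          refine Finset.sum_congr rfl fun l _ => ?_
          rw [sub_pow_char_pow, mul_sub]
        rw [h6]
        linear_combination h4 - h5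
    have h4 : ∀ b : Fin M, c b.succ = 0 := fun b => congrFun h3 b
    have h5 : c 0 = 0 := by
      have h6 := h1 ⟨0, by omega⟩
      simpa [h4] using h6
    intro b
    refine Fin.cases h5 h4 b
  have hrk : A.rank = M + 1 := by
    rw [hli.rank_matrix, Fintype.card_fin]
  have hker := LinearMap.finrank_range_add_finrank_ker A.mulVecLin
  have hrk' : Module.finrank K (LinearMap.range A.mulVecLin) = M + 1 := hrk
  rw [hrk', Module.finrank_fin_fun] at hker
  have hmem : ∀ v : Fin n → K, ∑ i, v i = 0 →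
      (∀ b, b < M → ∑ i, v i * w i ^ p ^ (2 * b + 1) = 0) → v ∈ LinearMap.ker A.mulVecLin := by
    intro v h1 h2
    rw [LinearMap.mem_ker]
    funext b
    rw [Matrix.mulVecLin_apply]
    refine Fin.cases ?_ (fun b => ?_) b
    · simp only [Matrix.mulVec, dotProduct, hA0, one_mul, Pi.zero_apply]
      exact h1
    · simp only [Matrix.mulVec, dotProduct, hAs, Pi.zero_apply]
      rw [← h2 b b.2]
      exact Finset.sum_congr rfl fun i _ => mul_comm _ _
  have hu' := hmem u hu hub
  rcases hM with ⟨hM, hpn⟩ | ⟨hM, hpn⟩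
  · have h1 : Module.finrank K (LinearMap.ker A.mulVecLin) = 0 := by omega
    rw [Submodule.finrank_eq_zero] at h1
    rw [h1, Submodule.mem_bot] at hu'
    intro i j
    rw [hu']
    rfl
  · have h1 : Module.finrank K (LinearMap.ker A.mulVecLin) = 1 := by omega
    have hn0 : (n : K) = 0 := (CharP.cast_eq_zero_iff K p n).2 hpn
    have h2 : (fun _ => 1 : Fin n → K) ∈ LinearMap.ker A.mulVecLin := by
      refine hmem _ ?_ fun b _ => ?_
      · simp [hn0]
      · simp only [one_mul]
        rw [← sum_pow_char_pow, hsum, zero_pow]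
        exact (pow_pos hp.pos _).ne'
    have h3 : (⟨_, h2⟩ : LinearMap.ker A.mulVecLin) ≠ 0 := by
      intro h
      have h4 := congrFun (congrArg Subtype.val h) ⟨0, by omega⟩
      exact one_ne_zero h4
    obtain ⟨c, hc⟩ := (finrank_eq_one_iff_of_nonzero' _ h3).1 h1 ⟨u, hu'⟩
    have h5 : ∀ i, u i = c := by
      intro i
      have h6 := congrFun (congrArg Subtype.val hc) i
      simpa using h6.symm
    intro i j
    rw [h5, h5]

/-- The last step: the differences. -/
theorem diff_mem {p : ℕ} [Fact p.Prime] [CharP k p] [IsAlgClosed k] [IsAlgClosed K]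
    {E : IntermediateField k K} {n M κ r : ℕ} (hn : 5 ≤ n)
    (hM : (M + 1 = n ∧ ¬ p ∣ n) ∨ (M + 2 = n ∧ p ∣ n)) (hr1 : 1 ≤ r) (hr : M ≤ r + κ + 1)
    {z : Fin n → K} (hinj : Function.Injective z) (hact : ActOver (next k r E) z)
    (hsum : ∑ i, z i = 0) (hE : ∀ j, gval p z j ∈ E) (hp0 : ∀ j, j < κ → gval p z j = 0) :
    ∀ i j, z i - z j ∈ next k r E := by
  classical
  have hp : p.Prime := Fact.out
  have hK : CharP K p := charP_of_injective_algebraMap (algebraMap k K).injective p
  have hexp : ExpChar K p := ExpChar.prime hp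
  have hM' : M + 2 ≤ n ∨ (M + 1 = n ∧ ¬ p ∣ n) := by
    rcases hM with h | h
    · exact Or.inr h
    · exact Or.inl (by omega)
  obtain ⟨a, t, ha0, ha, ht, hat⟩ := exists_scale' (κ := κ) (N := M) hr1 hr
    (fun j => gval p z j) (fun j => 1 + p ^ (2 * j + 1)) (fun j => by omega) hE hp0
  have hcl : IsAlgClosed (br k t) := isAlgClosed_br t
  obtain ⟨w, hw⟩ : ∃ w : Fin n → K, w = fun i => a * z i := ⟨_, rfl⟩
  have hwact : Act k w := by
    rw [hw]
    exact (hact.smul ha).act
  have hwinj : Function.Injective w := by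
    rw [hw]
    intro i j h
    exact hinj (mul_left_cancel₀ ha0 h)
  have hwsum : ∑ i, w i = 0 := by
    rw [hw, ← Finset.mul_sum, hsum, mul_zero]
  have hg : ∀ j, j < M → gval p w j ∈ br k t := by
    intro j hj
    rw [hw, gval_scale]
    exact hat j hj
  have hmem : ∀ x y, x ≤ M → y < M → hval p w x y ∈ br k t := by
    intro x y hx hy
    rcases Nat.lt_or_ge y x with h | h
    · rw [hval_of_lt w h]
      exact pow_mem (hg _ (by omega)) _
    · rw [hval_of_le w h]
      exact pow_mem (hg _ (by omega)) _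
  -- the matrix
  let G : Matrix (Fin M) (Fin M) (br k t) := fun x y => ⟨_, hmem x y x.2.le y.2⟩
  have hGinj : Function.Injective (G.vecMulLinear) := by
    rw [injective_iff_map_eq_zero]
    intro c hc
    have h1 : ∀ b : Fin M, ∑ x, (c x : K) * hval p w x b = 0 := by
      intro b
      have h2 := congrArg Subtype.val (congrFun hc b)
      simp only [Matrix.vecMulLinear_apply, Matrix.vecMul, dotProduct] at h2
      have h3 : ((∑ x, c x * G x b : br k t) : K) = 0 := h2
      rw [← h3]
      simp [G]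
    have h3 := const_of_orth (M := M) hn hM hwinj hwact hwsum
      (fun i => ∑ x : Fin M, (c x : K) * w i ^ p ^ (2 * (x : ℕ))) (by
        rw [Finset.sum_comm]
        refine Finset.sum_eq_zero fun x _ => ?_
        rw [← Finset.mul_sum, ← sum_pow_char_pow, hwsum, zero_pow (pow_pos hp.pos _).ne',
          mul_zero]) (fun b hb => by
        rw [← h1 ⟨b, hb⟩]
        simp only [hval, Finset.sum_mul, Finset.mul_sum]
        rw [Finset.sum_comm]
        refine Finset.sum_congr rfl fun x _ => Finset.sum_congr rfl fun i _ => ?_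
        rw [pow_add (w i), mul_assoc])
    have h4 : (fun x : Fin M => (c x : K)) = 0 := by
      refine add_ne hn hM' le_rfl hwinj hwact _ fun i j => ?_
      have h5 := h3 i j
      rw [← sub_eq_zero, ← Finset.sum_sub_distrib] at h5
      rw [← h5]
      refine Finset.sum_congr rfl fun x _ => ?_
      rw [sub_pow_char_pow, mul_sub]
    funext x
    exact Subtype.ext (congrFun h4 x)
  have hGsurj := LinearMap.injective_iff_surjective.1 hGinj
  obtain ⟨c, hc⟩ := hGsurj fun b => ⟨_, hmem M b le_rfl b.2⟩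
  have h1 : ∀ b : Fin M, ∑ x, (c x : K) * hval p w x b = hval p w M b := by
    intro b
    have h2 := congrArg Subtype.val (congrFun hc b)
    simp only [Matrix.vecMulLinear_apply, Matrix.vecMul, dotProduct] at h2
    rw [← h2]
    simp [G]
  have h3 := const_of_orth (M := M) hn hM hwinj hwact hwsum
    (fun i => w i ^ p ^ (2 * M) - ∑ x : Fin M, (c x : K) * w i ^ p ^ (2 * (x : ℕ))) (by
      rw [Finset.sum_sub_distrib, ← sum_pow_char_pow, hwsum, zero_pow (pow_pos hp.pos _).ne',
        zero_sub, neg_eq_zero, Finset.sum_comm]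
      refine Finset.sum_eq_zero fun x _ => ?_
      rw [← Finset.mul_sum, ← sum_pow_char_pow, hwsum, zero_pow (pow_pos hp.pos _).ne',
        mul_zero]) (fun b hb => by
      have h2 := h1 ⟨b, hb⟩
      simp only [sub_mul, Finset.sum_sub_distrib]
      rw [sub_eq_zero]
      have h4 : ∑ i, w i ^ p ^ (2 * M) * w i ^ p ^ (2 * b + 1) = hval p w M b := by
        simp only [hval]
        exact Finset.sum_congr rfl fun i _ => (pow_add _ _ _).symm
      rw [h4, ← h2]
      simp only [hval, Finset.sum_mul, Finset.mul_sum]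
      rw [Finset.sum_comm]
      refine Finset.sum_congr rfl fun x _ => Finset.sum_congr rfl fun i _ => ?_
      rw [pow_add (w x), mul_assoc])
  intro i j
  have h5 : w i - w j ∈ br k t := by
    refine mem_of_isAlgebraic _ ⟨Polynomial.X ^ p ^ (2 * M) -
      ∑ x : Fin M, Polynomial.C (c x) * Polynomial.X ^ p ^ (2 * (x : ℕ)), ?_, ?_⟩
    · have hdeg : (∑ x : Fin M, Polynomial.C (c x) * Polynomial.X ^ p ^ (2 * (x : ℕ))).degree <
          ((p ^ (2 * M) : ℕ) : WithBot ℕ) := by
        refine (Polynomial.degree_sum_le _ _).trans_lt ?_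
        refine (Finset.sup_lt_iff (WithBot.bot_lt_coe _)).2 ?_
        intro x _
        refine (Polynomial.degree_C_mul_X_pow_le _ _).trans_lt ?_
        have h9 : p ^ (2 * (x : ℕ)) < p ^ (2 * M) :=
          Nat.pow_lt_pow_right hp.one_lt (by have := x.2; omega)
        exact WithBot.coe_lt_coe.2 h9
      exact (Polynomial.monic_X_pow_sub hdeg).ne_zero
    · rw [map_sub, map_pow, Polynomial.aeval_X, map_sum]
      have h6 := h3 i j
      have h7 : ∀ x : Fin M, Polynomial.aeval (w i - w j)
          (Polynomial.C (c x) * Polynomial.X ^ p ^ (2 * (x : ℕ))) =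
          (c x : K) * w i ^ p ^ (2 * (x : ℕ)) - (c x : K) * w j ^ p ^ (2 * (x : ℕ)) := by
        intro x
        rw [map_mul, map_pow, Polynomial.aeval_X, Polynomial.aeval_C, sub_pow_char_pow, mul_sub]
        rfl
      rw [Finset.sum_congr rfl fun x _ => h7 x, Finset.sum_sub_distrib, sub_pow_char_pow]
      linear_combination h6
  have h6 : z i - z j = a⁻¹ * (w i - w j) := by
    rw [hw]
    field_simp
  rw [h6]
  exact mul_mem (inv_mem ha) (br_le_next t ht h5)

end Pool.Agent.LGP
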