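import Pool.Agent.Helper85.SC6.Sextic
import Pool.Agent.SQT.Fam
import Pool.Agent.SQT.COne

/-!
Characteristic `p`: the fields `next k r E` are perfect; descent over perfect fields.
-/

namespace Pool.Agent.LGP

open Pool.Agent.Helper85.SC Pool.Agent.SQT IntermediateField

variable {k : Type*} {K : Type*} [Field k] [Field K] [Algebra k K]

/-- closed under `p`-th roots -/
def Perf (p : ℕ) (E : IntermediateField k K) : Prop := ∀ x ∈ E, ∃ y ∈ E, y ^ p = x

theorem perf_next {p : ℕ} [Fact p.Prime] [CharP k p] [IsAlgClosed k] [IsAlgClosed K] {r : ℕ}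
    (E : IntermediateField k K) : Perf p (next k r E) := by
  have hp : 0 < p := (Fact.out : p.Prime).pos
  have hK : CharP K p := charP_of_injective_algebraMap (algebraMap k K).injective p
  have hexp : ExpChar K p := ExpChar.prime (Fact.out : p.Prime)
  let N' : IntermediateField k K :=
    { carrier := {x | ∃ y ∈ next k r E, y ^ p = x}
      mul_mem' := by
        rintro a b ⟨y, hy, rfl⟩ ⟨z, hz, rfl⟩
        exact ⟨y * z, mul_mem hy hz, mul_pow _ _ _⟩
      add_mem' := by
        rintro a b ⟨y, hy, rfl⟩ ⟨z, hz, rfl⟩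
        exact ⟨y + z, add_mem hy hz, add_pow_char y z p⟩
      algebraMap_mem' := by
        intro a
        obtain ⟨b, hb⟩ := IsAlgClosed.exists_pow_nat_eq a hp
        exact ⟨algebraMap k K b, (next k r E).algebraMap_mem b, by rw [← map_pow, hb]⟩
      inv_mem' := by
        rintro a ⟨y, hy, rfl⟩
        exact ⟨y⁻¹, inv_mem hy, inv_pow _ _⟩ }
  have h : next k r E ≤ N' := by
    refine iSup_le fun t z hz => ?_
    obtain ⟨y, hy⟩ := IsAlgClosed.exists_pow_nat_eq z hp
    refine ⟨y, br_le_next _ (fun i => (t i).2) (mem_br_of_pow hp ?_), hy⟩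
    rw [hy]
    exact hz
  exact fun x hx => h hx

/-- descent over a perfect field -/
theorem mem_of_fixed_perf {p : ℕ} [Fact p.Prime] [CharP k p] [IsAlgClosed K]
    {F : IntermediateField k K}
    (hF : Algebra.IsAlgebraic F K) {E : IntermediateField k K} (hFE : F ≤ E) (hE : Perf p E) {z : K}
    (h : ∀ g : K ≃ₐ[F] K, (∀ w ∈ E, g w = w) → g z = z) : z ∈ E := by
  have hcp : CharP E p := charP_of_injective_algebraMap (algebraMap k E).injective p
  have hexp : ExpChar E p := ExpChar.prime (Fact.out : p.Prime)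
  have hpr : PerfectRing E p := PerfectRing.ofSurjective E p (by
    intro x
    obtain ⟨y, hy, hyx⟩ := hE x x.2
    exact ⟨⟨y, hy⟩, Subtype.ext hyx⟩)
  have hpf : PerfectField E := PerfectRing.toPerfectField E p
  have hA : Algebra.IsAlgebraic E K := isAlg_mono hFE hF
  have hcl : IsAlgClosure E K := ⟨‹_›, hA⟩
  have hgal : IsGalois E K := {}
  have h1 := InfiniteGalois.fixedField_fixingSubgroup (⊥ : IntermediateField E K)
  have h2 : z ∈ (⊥ : IntermediateField E K) := by
    rw [← h1, mem_fixedField_iff]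
    intro g _
    let g' : K ≃ₐ[F] K := AlgEquiv.ofRingEquiv (f := g.toRingEquiv) fun x =>
      g.commutes ⟨x, hFE x.2⟩
    exact h g' fun w hw => g.commutes ⟨w, hw⟩
  rw [mem_bot] at h2
  obtain ⟨x, hx⟩ := h2
  rw [← hx]
  exact x.2

/-- even permutations are induced by automorphisms over `E` -/
theorem exists_lift_even_p {p : ℕ} [Fact p.Prime] [CharP k p] [IsAlgClosed K]
    {F E : IntermediateField k K} {n : ℕ}
    {y : Fin n → K} (hG : Gen F y) (hn : 5 ≤ n) (hFE : F ≤ E) (hE : Perf p E)
    (hst : Stab F E) {i₀ : Fin n} (hy : y i₀ ∉ E)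
    (σ : Equiv.Perm (Fin n)) (hσ : σ ∈ alternatingGroup (Fin n)) :
    ∃ g : K ≃ₐ[F] K, (∀ w ∈ E, g w = w) ∧ piHom hG g = σ := by
  let N : Subgroup (K ≃ₐ[F] K) :=
    { carrier := {g | ∀ w ∈ E, g w = w}
      mul_mem' := by
        intro a b ha hb w hw
        change a (b w) = w
        rw [hb w hw, ha w hw]
      one_mem' := fun w _ => rfl
      inv_mem' := by
        intro a ha w hw
        change a.symm w = w
        rw [AlgEquiv.symm_apply_eq, ha w hw] }
  have hN : N.Normal := by
    constructor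
    intro a ha g w hw
    change g (a (g.symm w)) = w
    rw [ha _ (hst g.symm w hw), AlgEquiv.apply_symm_apply]
  have hsurj : Function.Surjective (piHom hG) := fun τ =>
    (hG.lift τ).imp fun g hg => piHom_eq hG hg
  have hN' : (N.map (piHom hG)).Normal := hN.map _ hsurj
  have hne : N.map (piHom hG) ≠ ⊥ := by
    intro h
    apply hy
    refine mem_of_fixed_perf (p := p) hG.alg hFE hE fun g hg => ?_
    have h1 : piHom hG g ∈ N.map (piHom hG) := ⟨g, hg, rfl⟩
    rw [h, Subgroup.mem_bot] at h1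
    rw [piHom_spec hG, h1]
    rfl
  obtain ⟨g, hg, hgσ⟩ := alternating_le hn _ hN' hne hσ
  exact ⟨g, hg, hgσ⟩

end Pool.Agent.LGP
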